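import Pool.Agent.helper44.MDG.Spec

set_option autoImplicit false

namespace Pool.Agent.helper44.MDG

theorem PPB_col (e : Bool) (i : ℕ) : col e (i + 1) = !(col e i) := by
  unfold col
  by_cases h : i % 2 = 0
  · have h' : ¬ (i + 1) % 2 = 0 := by omega
    rw [if_pos h, if_neg h']
  · have h' : (i + 1) % 2 = 0 := by omega
    rw [if_neg h, if_pos h', Bool.not_not]

section

variable {n r : ℕ} {s : ℕ → ℕ} {e : Bool} {c : Fin n → Bool}

theorem PPB_mono (h : Runs n r s e c) (i j : ℕ) (hij : i ≤ j) (hj : j ≤ r) : s i ≤ s j := by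
  induction j, hij using Nat.le_induction with
  | base => exact le_refl _
  | succ j hij ih =>
    have h1 := ih (by omega)
    have h2 := h.len j (by omega)
    omega

theorem PPB_sep (h : Runs n r s e c) (i j : ℕ) (hij : i < j) (hj : j + 1 < r) :
    s (i + 1) + 7 ≤ s (j + 1) := by
  have h1 := h.len' (i + 1) (by omega) (by omega)
  have h2 := PPB_mono h (i + 1 + 1) (j + 1) (by omega) (by omega)
  omega

theorem PPB_bd (h : Runs n r s e c) (i : ℕ) (hi : i + 1 < r) :
    4 ≤ s (i + 1) ∧ s (i + 1) + 4 ≤ n := by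
  have h1 := h.len i (by omega)
  have h2 := h.len (i + 1) hi
  have h3 := PPB_mono h (i + 1 + 1) r (by omega) (le_refl _)
  have h4 := h.sr
  omega

theorem PPB_cl (h : Runs n r s e c) (i : ℕ) (hi : i + 1 < r) (v : Fin n)
    (h1 : s (i + 1) ≤ v.val + 4) (h2 : v.val < s (i + 1)) : c v = col e i := by
  have h3 := h.len i (by omega)
  exact h.colour i (by omega) v (by omega) h2

theorem PPB_cr (h : Runs n r s e c) (i : ℕ) (hi : i + 1 < r) (v : Fin n)
    (h1 : s (i + 1) ≤ v.val) (h2 : v.val < s (i + 1) + 4) : c v = !(col e i) := by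
  have h3 := h.len (i + 1) hi
  rw [← PPB_col]
  exact h.colour (i + 1) hi v h1 (by omega)

theorem PPB_find (h : Runs n r s e c) (v : ℕ) (k : ℕ) (hv : v < s k) :
    ∃ i, i < k ∧ s i ≤ v ∧ v < s (i + 1) := by
  induction k with
  | zero =>
    have := h.s0
    omega
  | succ k ih =>
    by_cases h1 : v < s k
    · obtain ⟨i, h2, h3⟩ := ih h1
      exact ⟨i, by omega, h3⟩
    · exact ⟨k, by omega, by omega, hv⟩

theorem PPB_adj (h : Runs n r s e c) (v u : Fin n) (huv : v.val + 1 = u.val) :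
    c u = c v ∨ ∃ i, i + 1 < r ∧ u.val = s (i + 1) ∧ c v = col e i ∧ c u = !(col e i) := by
  have hv := v.2
  have hu := u.2
  have hr := h.sr
  obtain ⟨i, hi, h1, h2⟩ := PPB_find h v.val r (by omega)
  by_cases h3 : u.val < s (i + 1)
  · left
    rw [h.colour i hi v h1 h2, h.colour i hi u (by omega) h3]
  · right
    have h4 : u.val = s (i + 1) := by omega
    have h5 : i + 1 < r := by
      by_contra hc
      have : i + 1 = r := by omega
      rw [this] at h4
      omega
    exact ⟨i, h5, h4, h.colour i hi v h1 h2, PPB_cr h i h5 u (by omega) (by omega)⟩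

end

theorem PPB : PPB_stmt := by
  intro n r s e p c h
  have hlt : ∀ i : Fin (r - 1), i.val + 1 < r := fun i => by
    have := i.2
    omega
  have hb1 : ∀ i : Fin (r - 1), A1 s e p i.val < n := fun i => by
    have := PPB_bd h i.val (hlt i)
    unfold A1
    split <;> omega
  have hb2 : ∀ i : Fin (r - 1), A2 s e p i.val < n := fun i => by
    have := PPB_bd h i.val (hlt i)
    unfold A2
    split <;> omega
  have hb3 : ∀ i : Fin (r - 1), A3 s e p i.val < n := fun i => by
    have := PPB_bd h i.val (hlt i)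
    unfold A3
    split <;> omega
  have hb4 : ∀ i : Fin (r - 1), B1 s e p i.val < n := fun i => by
    have := PPB_bd h i.val (hlt i)
    unfold B1
    split <;> omega
  have hb5 : ∀ i : Fin (r - 1), B2 s e p i.val < n := fun i => by
    have := PPB_bd h i.val (hlt i)
    unfold B2
    split <;> omega
  obtain ⟨a1, va1⟩ : ∃ f : Fin (r - 1) → Fin n, ∀ i, (f i).val = A1 s e p i.val :=
    ⟨fun i => ⟨_, hb1 i⟩, fun i => rfl⟩
  obtain ⟨a2, va2⟩ : ∃ f : Fin (r - 1) → Fin n, ∀ i, (f i).val = A2 s e p i.val :=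
    ⟨fun i => ⟨_, hb2 i⟩, fun i => rfl⟩
  obtain ⟨a3, va3⟩ : ∃ f : Fin (r - 1) → Fin n, ∀ i, (f i).val = A3 s e p i.val :=
    ⟨fun i => ⟨_, hb3 i⟩, fun i => rfl⟩
  obtain ⟨b1, vb1⟩ : ∃ f : Fin (r - 1) → Fin n, ∀ i, (f i).val = B1 s e p i.val :=
    ⟨fun i => ⟨_, hb4 i⟩, fun i => rfl⟩
  obtain ⟨b2, vb2⟩ : ∃ f : Fin (r - 1) → Fin n, ∀ i, (f i).val = B2 s e p i.val :=
    ⟨fun i => ⟨_, hb5 i⟩, fun i => rfl⟩
  have H : ∀ i : Fin (r - 1), 4 ≤ s (i.val + 1) ∧ s (i.val + 1) + 4 ≤ n ∧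
      ((col e i.val = p ∧ (a1 i).val = s (i.val + 1) - 1 ∧ (a2 i).val = s (i.val + 1) - 2 ∧
        (a3 i).val = s (i.val + 1) - 3 ∧ (b1 i).val = s (i.val + 1) ∧
        (b2 i).val = s (i.val + 1) + 1) ∨
      (col e i.val = !p ∧ (a1 i).val = s (i.val + 1) ∧ (a2 i).val = s (i.val + 1) + 1 ∧
        (a3 i).val = s (i.val + 1) + 2 ∧ (b1 i).val = s (i.val + 1) - 1 ∧
        (b2 i).val = s (i.val + 1) - 2)) := by
    intro i
    obtain ⟨h1, h2⟩ := PPB_bd h i.val (hlt i)
    refine ⟨h1, h2, ?_⟩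
    by_cases hc : col e i.val = p
    · left
      refine ⟨hc, ?_, ?_, ?_, ?_, ?_⟩
      · rw [va1]; unfold A1; rw [if_pos hc]
      · rw [va2]; unfold A2; rw [if_pos hc]
      · rw [va3]; unfold A3; rw [if_pos hc]
      · rw [vb1]; unfold B1; rw [if_pos hc]
      · rw [vb2]; unfold B2; rw [if_pos hc]
    · right
      refine ⟨?_, ?_, ?_, ?_, ?_, ?_⟩
      · cases hh : col e i.val <;> cases p <;> simp_all
      · rw [va1]; unfold A1; rw [if_neg hc]
      · rw [va2]; unfold A2; rw [if_neg hc]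
      · rw [va3]; unfold A3; rw [if_neg hc]
      · rw [vb1]; unfold B1; rw [if_neg hc]
      · rw [vb2]; unfold B2; rw [if_neg hc]
  have SEP : ∀ i j : Fin (r - 1), i = j ∨ s (i.val + 1) + 7 ≤ s (j.val + 1) ∨
      s (j.val + 1) + 7 ≤ s (i.val + 1) := by
    intro i j
    rcases lt_trichotomy i.val j.val with hij | hij | hij
    · exact Or.inr (Or.inl (PPB_sep h _ _ hij (hlt j)))
    · exact Or.inl (Fin.ext hij)
    · exact Or.inr (Or.inr (PPB_sep h _ _ hij (hlt i)))
  have CL := fun i : Fin (r - 1) => PPB_cl h i.val (hlt i)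
  have CR := fun i : Fin (r - 1) => PPB_cr h i.val (hlt i)
  have mem : ∀ v u : Fin n, u ∈ NP n v ↔
      (u.val = v.val ∨ u.val + 1 = v.val ∨ v.val + 1 = u.val) := by
    intro v u
    unfold NP
    rw [Finset.mem_filter]
    exact ⟨fun h => h.2, fun h => ⟨Finset.mem_univ _, h⟩⟩
  -- colours
  have ca : ∀ (i : Fin (r - 1)) (v : Fin n), (v.val = (a1 i).val ∨ v.val = (a2 i).val ∨
      v.val = (a3 i).val) → c v = p := by
    intro i v hv
    obtain ⟨h1, h2, ⟨hc, e1, e2, e3, e4, e5⟩ | ⟨hc, e1, e2, e3, e4, e5⟩⟩ := H i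
    · rw [CL i v (by omega) (by omega), hc]
    · rw [CR i v (by omega) (by omega), hc, Bool.not_not]
  have cb : ∀ (i : Fin (r - 1)) (v : Fin n), (v.val = (b1 i).val ∨ v.val = (b2 i).val) →
      c v = !p := by
    intro i v hv
    obtain ⟨h1, h2, ⟨hc, e1, e2, e3, e4, e5⟩ | ⟨hc, e1, e2, e3, e4, e5⟩⟩ := H i
    · rw [CR i v (by omega) (by omega), hc]
    · rw [CL i v (by omega) (by omega), hc]
  -- borders between adjacent vertices
  have ADJ : ∀ v u : Fin n, v.val + 1 = u.val → c u = c v ∨ ∃ i : Fin (r - 1),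
      u.val = s (i.val + 1) ∧ c v = col e i.val ∧ c u = !(col e i.val) := by
    intro v u huv
    rcases PPB_adj h v u huv with h1 | ⟨i, hi, h1⟩
    · exact Or.inl h1
    · exact Or.inr ⟨⟨i, by omega⟩, h1⟩
  refine ⟨a1, a2, a3, b1, b2, va1, va2, va3, vb1, vb2, ?_⟩
  constructor
  · intro v
    exact (mem v v).2 (Or.inl rfl)
  · exact fun i => ca i _ (Or.inl rfl)
  · exact fun i => ca i _ (Or.inr (Or.inl rfl))
  · exact fun i => ca i _ (Or.inr (Or.inr rfl))
  · exact fun i => cb i _ (Or.inl rfl)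
  · intro i
    ext u
    rw [mem, Finset.mem_insert, Finset.mem_insert, Finset.mem_singleton, Fin.ext_iff,
      Fin.ext_iff, Fin.ext_iff]
    obtain ⟨h1, h2, ⟨hc, e1, e2, e3, e4, e5⟩ | ⟨hc, e1, e2, e3, e4, e5⟩⟩ := H i <;> omega
  · intro i
    ext u
    rw [mem, Finset.mem_insert, Finset.mem_insert, Finset.mem_singleton, Fin.ext_iff,
      Fin.ext_iff, Fin.ext_iff]
    obtain ⟨h1, h2, ⟨hc, e1, e2, e3, e4, e5⟩ | ⟨hc, e1, e2, e3, e4, e5⟩⟩ := H i <;> omega
  · intro i
    ext u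
    rw [mem, Finset.mem_insert, Finset.mem_insert, Finset.mem_singleton, Fin.ext_iff,
      Fin.ext_iff, Fin.ext_iff]
    obtain ⟨h1, h2, ⟨hc, e1, e2, e3, e4, e5⟩ | ⟨hc, e1, e2, e3, e4, e5⟩⟩ := H i <;> omega
  · intro i
    rw [mem]
    obtain ⟨h1, h2, ⟨hc, e1, e2, e3, e4, e5⟩ | ⟨hc, e1, e2, e3, e4, e5⟩⟩ := H i <;> omega
  · intro i j
    rw [mem, mem, mem]
    obtain ⟨h1, h2, H1⟩ := H i
    obtain ⟨g1, g2, G1⟩ := H j
    rcases SEP i j with hij | hij
    · subst hij
      refine ⟨?_, ?_, fun _ => rfl⟩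
      · omega
      · omega
    · refine ⟨?_, ?_, fun hh => ?_⟩
      · omega
      · omega
      · exfalso
        omega
  · intro i j
    rw [Ne, Ne, Fin.ext_iff, Fin.ext_iff]
    obtain ⟨h1, h2, H1⟩ := H i
    obtain ⟨g1, g2, G1⟩ := H j
    rcases SEP i j with hij | hij
    · subst hij
      omega
    · omega
  · intro i j hh
    rw [Fin.ext_iff] at hh
    obtain ⟨h1, h2, H1⟩ := H i
    obtain ⟨g1, g2, G1⟩ := H j
    rcases SEP i j with hij | hij
    · exact hij
    · exfalso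
      omega
  · intro i j hh
    rw [Fin.ext_iff] at hh
    obtain ⟨h1, h2, H1⟩ := H i
    obtain ⟨g1, g2, G1⟩ := H j
    rcases SEP i j with hij | hij
    · exact hij
    · exfalso
      omega
  · intro i j hh
    rw [Fin.ext_iff] at hh
    obtain ⟨h1, h2, H1⟩ := H i
    obtain ⟨g1, g2, G1⟩ := H j
    rcases SEP i j with hij | hij
    · exact hij
    · exfalso
      omega
  · intro i j
    rw [Ne, Fin.ext_iff]
    obtain ⟨h1, h2, H1⟩ := H i
    obtain ⟨g1, g2, G1⟩ := H j
    rcases SEP i j with hij | hij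
    · subst hij
      omega
    · omega
  · intro i j
    rw [Ne, Fin.ext_iff]
    obtain ⟨h1, h2, H1⟩ := H i
    obtain ⟨g1, g2, G1⟩ := H j
    rcases SEP i j with hij | hij
    · subst hij
      omega
    · omega
  · intro i j hh
    rw [Fin.ext_iff] at hh
    obtain ⟨h1, h2, H1⟩ := H i
    obtain ⟨g1, g2, G1⟩ := H j
    rcases SEP i j with hij | hij
    · exact hij
    · exfalso
      omega
  · exact fun i => cb i _ (Or.inr rfl)
  · intro v u hv hu
    rw [mem] at hu
    rcases hu with hu | hu | hu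
    · left
      rw [Fin.ext hu]
      exact hv
    · rcases ADJ u v hu with h1 | ⟨i, h1, h2, h3⟩
      · left
        rw [← h1]
        exact hv
      · right
        rw [hv] at h3
        obtain ⟨g1, g2, ⟨hc, e1, e2, e3, e4, e5⟩ | ⟨hc, e1, e2, e3, e4, e5⟩⟩ := H i
        · exact ⟨i, Fin.ext (by omega), Fin.ext (by omega)⟩
        · rw [hc] at h3
          cases p <;> simp at h3
    · rcases ADJ v u hu with h1 | ⟨i, h1, h2, h3⟩
      · left
        rw [h1]
        exact hv
      · right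
        rw [hv] at h2
        obtain ⟨g1, g2, ⟨hc, e1, e2, e3, e4, e5⟩ | ⟨hc, e1, e2, e3, e4, e5⟩⟩ := H i
        · rw [hc] at h2
          cases p <;> simp at h2
        · exact ⟨i, Fin.ext (by omega), Fin.ext (by omega)⟩
  · intro v u hv hu
    rw [mem] at hu
    rcases hu with hu | hu | hu
    · left
      rw [Fin.ext hu]
      exact hv
    · rcases ADJ u v hu with h1 | ⟨i, h1, h2, h3⟩
      · left
        rw [← h1]
        exact hv
      · right
        rw [hv] at h3
        obtain ⟨g1, g2, ⟨hc, e1, e2, e3, e4, e5⟩ | ⟨hc, e1, e2, e3, e4, e5⟩⟩ := H i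
        · rw [hc] at h3
          cases p <;> simp at h3
        · exact ⟨i, Fin.ext (by omega), Fin.ext (by omega)⟩
    · rcases ADJ v u hu with h1 | ⟨i, h1, h2, h3⟩
      · left
        rw [h1]
        exact hv
      · right
        rw [hv] at h2
        obtain ⟨g1, g2, ⟨hc, e1, e2, e3, e4, e5⟩ | ⟨hc, e1, e2, e3, e4, e5⟩⟩ := H i
        · exact ⟨i, Fin.ext (by omega), Fin.ext (by omega)⟩
        · rw [hc] at h2
          cases p <;> simp at h2
  · intro v i j _ hi hj
    rw [mem, mem] at hi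
    rw [mem, mem] at hj
    obtain ⟨h1, h2, H1⟩ := H i
    obtain ⟨g1, g2, G1⟩ := H j
    rcases SEP i j with hij | hij
    · exact hij
    · exfalso
      omega

end Pool.Agent.helper44.MDG
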